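import Pool.Agent.H164Z.RadMain

/-!
# Negative solutions need not be radially symmetric

For an integer `m > N` take `p(r) = A r^(2 (m - N))` and a nonlinearity `g` with `g(u) = e^u` for
`u ≤ -1` that is cut off to satisfy all hypotheses.  For `A` large, the function
`u = 2 N log |z| + log (8 (m+1)^2 / A) - 2 log (1 + |z^(m+1) - 1|^2)` stays below `-1` and solves
the equation; it is not radial.
-/

namespace Pool.Agent.Results.MP_ad2fa1_an.NonRadial

open Pool.Agent.H164Z.Rad

/-- For every `N ≥ 0` there are `p`, `q` such that `f(t) = e^(2t) p(e^t)` and `g(u) = q(e^u)` satisfy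
(H1) to (H8), and a negative solution that is not radially symmetric about the origin. -/
theorem result (N : ℝ) (hN : 0 ≤ N) : ∃ p q : ℝ → ℝ,
    Hyp (fun t => Real.exp (2 * t) * p (Real.exp t)) (fun u => q (Real.exp u)) ∧
    ∃ u : Plane → ℝ, IsSolution N p q u ∧ (∀ x, x ≠ 0 → u x < 0) ∧
      ∃ x y : Plane, x ≠ 0 ∧ ‖x‖ = ‖y‖ ∧ u x ≠ u y :=
  main N hN

end Pool.Agent.Results.MP_ad2fa1_an.NonRadial
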